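import Mathlib

/-! A relation without short closed walks has a large acyclic set (region growing). -/

namespace Pool.Agent.Lib.MP_2c7063_coD

open Finset

variable {α : Type*}

/-- there is a walk of length `n` -/
def Wk (R : α → α → Prop) : ℕ → α → α → Prop
  | 0, x, y => x = y
  | n + 1, x, y => ∃ z, Wk R n x z ∧ R z y

theorem Wk.trans {R : α → α → Prop} {m : ℕ} {x y : α} (h : Wk R m x y) :
    ∀ {n : ℕ} {z : α}, Wk R n y z → Wk R (m + n) x z
  | 0, z, h' => by
      have : y = z := h'
      subst this
      exact h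
  | n + 1, z, h' => by
      obtain ⟨w, h1, h2⟩ := h'
      exact ⟨w, Wk.trans h h1, h2⟩

theorem Wk.one {R : α → α → Prop} {x y : α} (h : R x y) : Wk R 1 x y := ⟨x, rfl, h⟩

theorem Wk.of_flip {R : α → α → Prop} : ∀ {n : ℕ} {x y : α}, Wk (flip R) n x y → Wk R n y x
  | 0, x, y, h => Eq.symm h
  | n + 1, x, y, h => by
      obtain ⟨z, h1, h2⟩ := h
      have h3 : Wk R 1 y z := Wk.one h2
      have h4 := h3.trans (Wk.of_flip h1)
      rwa [Nat.add_comm] at h4

open Classical in
/-- the points of `W` that can be reached from `v` in at most `j` steps -/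
noncomputable def ball (R : α → α → Prop) (W : Finset α) (v : α) : ℕ → Finset α
  | 0 => {v}
  | j + 1 => ball R W v j ∪ W.filter (fun y => ∃ x ∈ ball R W v j, R x y)

section ball

variable {R : α → α → Prop} {W : Finset α} {v : α}

theorem ball_succ (j : ℕ) : ball R W v j ⊆ ball R W v (j + 1) := by
  classical
  intro x hx
  simp only [ball, mem_union]
  exact Or.inl hx

theorem ball_mono {j k : ℕ} (h : j ≤ k) : ball R W v j ⊆ ball R W v k := by
  induction k, h using Nat.le_induction with
  | base => exact Subset.refl _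
  | succ k _ ih => exact ih.trans (ball_succ k)

theorem mem_ball_self (j : ℕ) : v ∈ ball R W v j :=
  ball_mono (Nat.zero_le j) (by simp [ball])

theorem ball_subset (hv : v ∈ W) (j : ℕ) : ball R W v j ⊆ W := by
  classical
  induction j with
  | zero => simpa [ball] using hv
  | succ j ih =>
    intro x hx
    simp only [ball, mem_union, mem_filter] at hx
    rcases hx with hx | hx
    · exact ih hx
    · exact hx.1

theorem mem_ball_succ {j : ℕ} {x y : α} (hx : x ∈ ball R W v j) (hy : y ∈ W) (h : R x y) :
    y ∈ ball R W v (j + 1) := by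
  classical
  simp only [ball, mem_union, mem_filter]
  exact Or.inr ⟨hy, x, hx, h⟩

theorem walk_of_mem_ball {j : ℕ} : ∀ {x : α}, x ∈ ball R W v j → ∃ l ≤ j, Wk R l v x := by
  classical
  induction j with
  | zero =>
    intro x hx
    simp only [ball, mem_singleton] at hx
    exact ⟨0, le_refl _, hx.symm⟩
  | succ j ih =>
    intro x hx
    simp only [ball, mem_union, mem_filter] at hx
    rcases hx with hx | ⟨_, y, hy, h⟩
    · obtain ⟨l, hl, h⟩ := ih hx
      exact ⟨l, by omega, h⟩
    · obtain ⟨l, hl, h'⟩ := ih hy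
      exact ⟨l + 1, by omega, y, h', h⟩

end ball

theorem bernoulli (m n : ℕ) : m ^ n * (m + n) ≤ (m + 1) ^ n * m := by
  induction n with
  | zero => simp
  | succ n ih =>
    have h1 : m ^ n ≤ (m + 1) ^ n := Nat.pow_le_pow_left (by omega) n
    calc m ^ (n + 1) * (m + (n + 1)) = m * (m ^ n * (m + n)) + m ^ n * m := by ring
      _ ≤ m * ((m + 1) ^ n * m) + (m + 1) ^ n * m :=
          Nat.add_le_add (Nat.mul_le_mul_left _ ih) (Nat.mul_le_mul_right _ h1)
      _ = (m + 1) ^ (n + 1) * m := by ring

theorem two_mul_pow_le (m : ℕ) (hm : 1 ≤ m) : 2 * m ^ m ≤ (m + 1) ^ m := by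
  have h := bernoulli m m
  have h2 : (2 * m ^ m) * m ≤ (m + 1) ^ m * m := by
    calc (2 * m ^ m) * m = m ^ m * (m + m) := by ring
      _ ≤ _ := h
  exact Nat.le_of_mul_le_mul_right h2 (by omega)

theorem growth (c : ℕ → ℕ) (m d : ℕ) (hm : 1 ≤ m) (h0 : 1 ≤ c 0)
    (hg : ∀ j < m * d, (m + 1) * c j < m * c (j + 1)) : 2 ^ d ≤ c (m * d) := by
  have key : ∀ j ≤ m * d, (m + 1) ^ j ≤ m ^ j * c j := by
    intro j
    induction j with
    | zero => intro _; simpa using h0
    | succ j ih =>
      intro hj
      have h1 := ih (by omega)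
      have h2 := hg j (by omega)
      calc (m + 1) ^ (j + 1) = (m + 1) * (m + 1) ^ j := by ring
        _ ≤ (m + 1) * (m ^ j * c j) := Nat.mul_le_mul_left _ h1
        _ = m ^ j * ((m + 1) * c j) := by ring
        _ ≤ m ^ j * (m * c (j + 1)) := Nat.mul_le_mul_left _ h2.le
        _ = m ^ (j + 1) * c (j + 1) := by ring
  have h1 := key (m * d) (le_refl _)
  have h2 : (2 * m ^ m) ^ d ≤ ((m + 1) ^ m) ^ d := Nat.pow_le_pow_left (two_mul_pow_le m hm) d
  have h3 : (2 * m ^ m) ^ d ≤ m ^ (m * d) * c (m * d) := by
    rw [← pow_mul] at h2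
    exact h2.trans h1
  have h4 : m ^ (m * d) * 2 ^ d ≤ m ^ (m * d) * c (m * d) := by
    calc m ^ (m * d) * 2 ^ d = (2 * m ^ m) ^ d := by rw [mul_pow, ← pow_mul]; ring
      _ ≤ _ := h3
  exact Nat.le_of_mul_le_mul_left h4 (Nat.pow_pos (by omega))

open Classical in
theorem combine {R : α → α → Prop} {T T' : Finset α} (f f' : α → ℕ)
    (hf : ∀ x ∈ T, ∀ y ∈ T, R x y → f x < f y) (hf' : ∀ x ∈ T', ∀ y ∈ T', R x y → f' x < f' y)
    (hno : ∀ x ∈ T, ∀ y ∈ T', ¬ R x y) :
    ∃ g : α → ℕ, ∀ x ∈ T ∪ T', ∀ y ∈ T ∪ T', R x y → g x < g y := by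
  refine ⟨fun x => if x ∈ T then f x + (T'.sup f' + 1) else f' x, ?_⟩
  intro x hx y hy h
  simp only
  by_cases hxT : x ∈ T
  · by_cases hyT : y ∈ T
    · have := hf x hxT y hyT h
      simp only [if_pos hxT, if_pos hyT]
      omega
    · have hyT' : y ∈ T' := by
        rcases mem_union.1 hy with h' | h'
        · exact absurd h' hyT
        · exact h'
      exact absurd h (hno x hxT y hyT')
  · have hxT' : x ∈ T' := by
      rcases mem_union.1 hx with h' | h'
      · exact absurd h' hxT
      · exact h'
    by_cases hyT : y ∈ T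
    · have : f' x ≤ T'.sup f' := Finset.le_sup hxT'
      simp only [if_neg hxT, if_pos hyT]
      omega
    · have hyT' : y ∈ T' := by
        rcases mem_union.1 hy with h' | h'
        · exact absurd h' hyT
        · exact h'
      simp only [if_neg hxT, if_neg hyT]
      exact hf' x hxT' y hyT' h

/-- the sparse layer of a ball that contains at most half of the points -/
theorem sparse_layer {R : α → α → Prop} {W : Finset α} {v : α} {m d : ℕ} (hm : 1 ≤ m)
    (hc : (ball R W v (m * (d + 1))).card ≤ 2 ^ d) :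
    ∃ j < m * (d + 1), m * (ball R W v (j + 1)).card ≤ (m + 1) * (ball R W v j).card ∧
      (ball R W v j).card ≤ 2 ^ d := by
  by_contra hcon
  push Not at hcon
  have hle : ∀ j ≤ m * (d + 1), (ball R W v j).card ≤ 2 ^ d := fun j hj =>
    (card_le_card (ball_mono hj)).trans hc
  have h1 : ∀ j < m * (d + 1), (m + 1) * (ball R W v j).card < m * (ball R W v (j + 1)).card := by
    intro j hj
    by_contra h
    have := hcon j hj (not_lt.1 h)
    have := hle j hj.le
    omega
  have h2 := growth (fun j => (ball R W v j).card) m (d + 1) hm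
    (by simp [ball]) h1
  have h3 : 2 ^ (d + 1) ≤ 2 ^ d := h2.trans hc
  have h4 : 2 ^ d < 2 ^ (d + 1) := by
    rw [pow_succ]
    have : 0 < 2 ^ d := Nat.pos_of_ne_zero (by positivity)
    omega
  omega

open Classical in
theorem exists_acyclic (R : α → α → Prop) (m D : ℕ) (hm : 1 ≤ m) (hD : 1 ≤ D)
    (hno : ∀ n, 1 ≤ n → n ≤ 2 * (m * D) → ∀ x, ¬ Wk R n x x) :
    ∀ d ≤ D, ∀ N : ℕ, ∀ W : Finset α, W.card ≤ N → W.card ≤ 2 ^ d →
      ∃ T ⊆ W, (∃ f : α → ℕ, ∀ x ∈ T, ∀ y ∈ T, R x y → f x < f y) ∧
        m * W.card ≤ m * T.card + d * W.card := by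
  have hloop : ∀ x, ¬ R x x := by
    intro x hx
    have hmD : 1 ≤ m * D := Nat.mul_pos hm hD
    exact hno 1 (le_refl _) (by omega) x (Wk.one hx)
  have small : ∀ d : ℕ, ∀ W : Finset α, W.card ≤ 1 →
      ∃ T ⊆ W, (∃ f : α → ℕ, ∀ x ∈ T, ∀ y ∈ T, R x y → f x < f y) ∧
        m * W.card ≤ m * T.card + d * W.card := by
    intro d W hW
    refine ⟨W, Subset.refl _, ⟨fun _ => 0, ?_⟩, Nat.le_add_right _ _⟩
    intro x hx y hy h
    have : x = y := card_le_one.1 hW x hx y hy
    subst this
    exact absurd h (hloop x)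
  intro d
  induction d with
  | zero =>
    intro _ N W _ hW
    exact small 0 W (by simpa using hW)
  | succ d ihd =>
    intro hdD N
    induction N with
    | zero =>
      intro W hW _
      exact small (d + 1) W (by omega)
    | succ N ihN =>
      intro W hWN hW
      by_cases h1 : W.card ≤ 1
      · exact small (d + 1) W h1
      push Not at h1
      obtain ⟨v, hv⟩ : W.Nonempty := card_pos.1 (by omega)
      have hk : m * (d + 1) ≤ m * D := Nat.mul_le_mul_left _ hdD
      -- the two balls meet only in `v`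
      have hint : ball R W v (m * (d + 1)) ∩ ball (flip R) W v (m * (d + 1)) ⊆ {v} := by
        intro x hx
        rw [mem_inter] at hx
        obtain ⟨l, hl, hw⟩ := walk_of_mem_ball hx.1
        obtain ⟨l', hl', hw'⟩ := walk_of_mem_ball hx.2
        rw [mem_singleton]
        by_contra hne
        have hl0 : l ≠ 0 := by
          rintro rfl
          exact hne (Eq.symm hw)
        exact hno (l + l') (by omega) (by omega) v (hw.trans hw'.of_flip)
      have hsum : (ball R W v (m * (d + 1))).card + (ball (flip R) W v (m * (d + 1))).card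
          ≤ W.card + 1 := by
        rw [← card_union_add_card_inter]
        have h2 : (ball R W v (m * (d + 1)) ∪ ball (flip R) W v (m * (d + 1))).card ≤ W.card :=
          card_le_card (union_subset (ball_subset hv _) (ball_subset hv _))
        have h3 := card_le_card hint
        rw [card_singleton] at h3
        omega
      have hpow : 2 ^ (d + 1) = 2 * 2 ^ d := by ring
      have hor : (ball R W v (m * (d + 1))).card ≤ 2 ^ d ∨
          (ball (flip R) W v (m * (d + 1))).card ≤ 2 ^ d := by omega
      -- the common final step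
      have fin : ∀ X P : Finset α, X ⊆ P → P ⊆ W → v ∈ P → X.card ≤ 2 ^ d →
          m * P.card ≤ (m + 1) * X.card →
          ((∀ x ∈ X, ∀ y ∈ W \ P, ¬ R x y) ∨ (∀ x ∈ W \ P, ∀ y ∈ X, ¬ R x y)) →
          ∃ T ⊆ W, (∃ f : α → ℕ, ∀ x ∈ T, ∀ y ∈ T, R x y → f x < f y) ∧
            m * W.card ≤ m * T.card + (d + 1) * W.card := by
        intro X P hXP hPW hvP hX hlay hcut
        have hcard : W.card = P.card + (W \ P).card := by
          rw [card_sdiff_of_subset hPW]
          have := card_le_card hPW
          omega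
        have hPpos : 0 < P.card := card_pos.2 ⟨v, hvP⟩
        obtain ⟨T, hT, ⟨f, hf⟩, hTc⟩ := ihd (by omega) X.card X (le_refl _) hX
        obtain ⟨T', hT', ⟨f', hf'⟩, hTc'⟩ := ihN (W \ P) (by omega) (by omega)
        have hdisj : Disjoint T T' := by
          rw [disjoint_left]
          intro x hx hx'
          exact (mem_sdiff.1 (hT' hx')).2 (hXP (hT hx))
        refine ⟨T ∪ T', union_subset (hT.trans (hXP.trans hPW)) (hT'.trans sdiff_subset), ?_, ?_⟩
        · rcases hcut with hcut | hcut
          · exact combine f f' hf hf' (fun x hx y hy => hcut x (hT hx) y (hT' hy))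
          · rw [union_comm]
            exact combine f' f hf' hf (fun x hx y hy => hcut x (hT' hx) y (hT hy))
        · rw [card_union_of_disjoint hdisj]
          have hXPc : X.card ≤ P.card := card_le_card hXP
          calc m * W.card = m * P.card + m * (W \ P).card := by rw [hcard]; ring
            _ ≤ (m + 1) * X.card + (m * T'.card + (d + 1) * (W \ P).card) :=
                Nat.add_le_add hlay hTc'
            _ = m * X.card + X.card + (m * T'.card + (d + 1) * (W \ P).card) := by ring
            _ ≤ (m * T.card + d * X.card) + X.card + (m * T'.card + (d + 1) * (W \ P).card) := by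
                omega
            _ = m * (T.card + T'.card) + (d + 1) * (X.card + (W \ P).card) := by ring
            _ ≤ m * (T.card + T'.card) + (d + 1) * W.card := by
                apply Nat.add_le_add_left
                apply Nat.mul_le_mul_left
                omega
      rcases hor with h2 | h2
      · obtain ⟨j, hj, h3, h4⟩ := sparse_layer hm h2
        refine fin (ball R W v j) (ball R W v (j + 1)) (ball_succ j) (ball_subset hv _)
          (mem_ball_self _) h4 h3 (Or.inl ?_)
        intro x hx y hy h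
        rw [mem_sdiff] at hy
        exact hy.2 (mem_ball_succ hx hy.1 h)
      · obtain ⟨j, hj, h3, h4⟩ := sparse_layer hm h2
        refine fin (ball (flip R) W v j) (ball (flip R) W v (j + 1)) (ball_succ j)
          (ball_subset hv _) (mem_ball_self _) h4 h3 (Or.inr ?_)
        intro x hx y hy h
        rw [mem_sdiff] at hx
        exact hx.2 (mem_ball_succ hy hx.1 h)

/-- Either there is a closed walk of length at most `4 d ^ 2`, or half of the points form an
acyclic set. -/
theorem half_acyclic (R : α → α → Prop) (d : ℕ) (hd : 1 ≤ d)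
    (hno : ∀ n, 1 ≤ n → n ≤ 4 * d ^ 2 → ∀ x, ¬ Wk R n x x) (W : Finset α) (hW : W.card ≤ 2 ^ d) :
    ∃ T ⊆ W, (∃ f : α → ℕ, ∀ x ∈ T, ∀ y ∈ T, R x y → f x < f y) ∧ W.card ≤ 2 * T.card := by
  obtain ⟨T, hT, hf, hc⟩ := exists_acyclic R (2 * d) d (by omega) hd
    (fun n h1 h2 => hno n h1 (by
      have : 2 * (2 * d * d) = 4 * d ^ 2 := by ring
      omega)) d (le_refl _) W.card W (le_refl _) hW
  refine ⟨T, hT, hf, ?_⟩
  have h1 : d * W.card ≤ d * (2 * T.card) := by
    have e1 : 2 * d * W.card = d * W.card + d * W.card := by ring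
    have e2 : 2 * d * T.card = d * (2 * T.card) := by ring
    omega
  exact Nat.le_of_mul_le_mul_left h1 (by omega)

end Pool.Agent.Lib.MP_2c7063_coD
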