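import Pool.Agent.Lib.MP_2c7063_coD.Digraph

/-! Exchange lemmas for matroids. -/

namespace Pool.Agent.Lib.MP_2c7063_coD

open Set

variable {α : Type*} {M : Matroid α}

/-- If the fundamental circuit of `u l` meets `{b j | j ∈ J}` in `b l` only, all `b j` can be
exchanged for all `u j`. -/
theorem diag_exchange {Z : Set α} (hZ : M.IsBase Z) (hfin : Z.Finite) (J : Finset ℕ)
    (b u : ℕ → α) (hb : ∀ j ∈ J, b j ∈ Z) (hu : ∀ j ∈ J, u j ∈ M.E)
    (h : ∀ j ∈ J, ∀ l ∈ J, (u l ∉ M.closure (Z \ {b j}) ↔ l = j)) :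
    M.IsBase ((Z \ b '' J) ∪ u '' J) := by
  classical
  have hZE := hZ.subset_ground
  have hinj : InjOn b J := by
    intro j hj l hl hjl
    have h1 := (h l hl l hl).2 rfl
    rw [← hjl] at h1
    exact ((h j hj l hl).1 h1).symm
  set K := Z \ b '' (J : Set ℕ) with hK
  have hKE : K ⊆ M.E := sdiff_subset.trans hZE
  have hout : ∀ l ∈ J, u l ∉ M.closure K := by
    intro l hl hc
    refine (h l hl l hl).2 rfl (M.closure_subset_closure ?_ hc)
    intro x hx
    refine ⟨hx.1, fun hx' => hx.2 ?_⟩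
    rw [mem_singleton_iff] at hx'
    exact ⟨l, hl, hx'.symm⟩
  have hin : ∀ l ∈ J, u l ∈ M.closure (insert (b l) K) := by
    intro l hl
    by_cases hA : ({j | j ∈ J ∧ j ≠ l} : Set ℕ).Nonempty
    · have h1 : insert (b l) K = ⋂ j ∈ ({j | j ∈ J ∧ j ≠ l} : Set ℕ), (Z \ {b j}) := by
        ext x
        simp only [mem_insert_iff, mem_iInter, mem_ofPred_eq, mem_sdiff, mem_singleton_iff]
        constructor
        · rintro (rfl | hx) j ⟨hj, hjl⟩
          · exact ⟨hb l hl, fun h' => hjl (hinj hl hj h').symm⟩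
          · exact ⟨hx.1, fun h' => hx.2 ⟨j, hj, h'.symm⟩⟩
        · intro hx
          by_cases hxl : x = b l
          · exact Or.inl hxl
          · right
            obtain ⟨j0, hj0⟩ := hA
            refine ⟨(hx j0 hj0).1, ?_⟩
            rintro ⟨j, hj, rfl⟩
            by_cases hjl : j = l
            · exact hxl (by rw [hjl])
            · exact (hx j ⟨hj, hjl⟩).2 rfl
      rw [h1, Matroid.closure_biInter_eq_biInter_closure_of_biUnion_indep (I := fun j => Z \ {b j})
        hA (hZ.indep.subset (iUnion₂_subset fun j _ => sdiff_subset))]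
      simp only [mem_iInter, mem_ofPred_eq]
      rintro j ⟨hj, hjl⟩
      by_contra hc
      exact hjl ((h j hj l hl).1 hc).symm
    · have h1 : insert (b l) K = Z := by
        ext x
        simp only [mem_insert_iff]
        constructor
        · rintro (rfl | hx)
          · exact hb l hl
          · exact hx.1
        · intro hx
          by_cases hxl : x = b l
          · exact Or.inl hxl
          · right
            refine ⟨hx, ?_⟩
            rintro ⟨j, hj, rfl⟩
            by_cases hjl : j = l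
            · exact hxl (by rw [hjl])
            · exact hA ⟨j, hj, hjl⟩
      rw [h1, hZ.closure_eq]
      exact hu l hl
  set X := K ∪ u '' (J : Set ℕ) with hX
  have hXE : X ⊆ M.E := by
    rintro x (hx | ⟨j, hj, rfl⟩)
    · exact hKE hx
    · exact hu j hj
  have hZX : Z ⊆ M.closure X := by
    intro z hz
    by_cases hzb : z ∈ b '' (J : Set ℕ)
    · obtain ⟨l, hl, rfl⟩ := hzb
      have h1 := Matroid.closure_exchange ⟨hin l hl, hout l hl⟩
      refine M.closure_subset_closure ?_ h1.1
      exact insert_subset (Or.inr ⟨l, hl, rfl⟩) (fun x hx => Or.inl hx)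
    · exact M.mem_closure_of_mem (Or.inl ⟨hz, hzb⟩) hXE
  have hspan : M.Spanning X := by
    rw [Matroid.spanning_iff_ground_subset_closure hXE]
    have := M.closure_subset_closure_of_subset_closure hZX
    rwa [hZ.closure_eq] at this
  obtain ⟨B0, hB0, hB0X⟩ := hspan.exists_isBase_subset
  have hcard : X.encard ≤ B0.encard := by
    rw [hB0.encard_eq_encard_of_isBase hZ]
    have h1 : b '' (J : Set ℕ) ⊆ Z := by
      rintro _ ⟨j, hj, rfl⟩
      exact hb j hj
    calc X.encard ≤ K.encard + (u '' (J : Set ℕ)).encard := encard_union_le _ _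
      _ ≤ K.encard + (J : Set ℕ).encard := by
          gcongr
          exact encard_image_le _ _
      _ = K.encard + (b '' (J : Set ℕ)).encard := by rw [hinj.encard_image]
      _ = Z.encard := encard_sdiff_add_encard_of_subset h1
  have hfinX : X.Finite := (hfin.sdiff).union (J.finite_toSet.image u)
  have := (hfinX.subset hB0X).eq_of_subset_of_encard_le hB0X hcard
  rwa [← this]

/-- The situation after `i` exchanges: `S ⊆ B`, `Y ⊆ B'` are not yet exchanged. -/
structure Stage (M : Matroid α) (S S₁ Y Y₁ : Set α) (i s : ℕ) : Prop where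
  base1 : M.IsBase (S ∪ Y₁)
  base2 : M.IsBase (Y ∪ S₁)
  baseB : M.IsBase (S ∪ S₁)
  baseB' : M.IsBase (Y ∪ Y₁)
  disj : Disjoint (S ∪ S₁) (Y ∪ Y₁)
  dS : Disjoint S S₁
  dY : Disjoint Y Y₁
  cS₁ : S₁.encard = i
  cY₁ : Y₁.encard = i
  cS : S.encard = s
  cY : Y.encard = s

/-- `b` can be replaced by `t` in `S ∪ Y₁` -/
def Out (M : Matroid α) (S Y₁ : Set α) (b t : α) : Prop := t ∉ M.closure ((S ∪ Y₁) \ {b})

/-- two steps of the exchange digraph -/
def Rel (M : Matroid α) (S S₁ Y Y₁ : Set α) (t t' : α) : Prop :=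
  t ∈ Y ∧ t' ∈ Y ∧ ∃ b ∈ S, Out M Y S₁ t b ∧ Out M S Y₁ b t'

variable {S S₁ Y Y₁ : Set α} {i s : ℕ}

/-- in a circuit every element of the base has an out-neighbour outside -/
theorem circuit_out {Z C : Set α} (hZ : M.Indep Z) (hC : M.IsCircuit C) {b : α} (hb : b ∈ C)
    (hbZ : b ∈ Z) : ∃ t ∈ C, t ∉ Z ∧ t ∉ M.closure (Z \ {b}) := by
  by_contra hcon
  push Not at hcon
  have h1 : C \ {b} ⊆ M.closure (Z \ {b}) := by
    intro x hx
    by_cases hxZ : x ∈ Z
    · exact M.mem_closure_of_mem ⟨hxZ, hx.2⟩ (sdiff_subset.trans hZ.subset_ground)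
    · exact hcon x hx.1 hxZ
  have h2 := hC.mem_closure_sdiff_singleton_of_mem hb
  have h3 := M.closure_subset_closure_of_subset_closure h1 h2
  exact hZ.notMem_closure_sdiff_of_mem hbZ h3

theorem Stage.no_potential (h : Stage M S S₁ Y Y₁ i s) (T : Finset α) (hT : (T : Set α) ⊆ Y)
    (hc : i + 1 ≤ T.card) (f : α → ℕ)
    (hf : ∀ x ∈ T, ∀ y ∈ T, Rel M S S₁ Y Y₁ x y → f x < f y) : False := by
  classical
  have hST : Disjoint S (T : Set α) :=
    h.disj.mono subset_union_left (hT.trans subset_union_left)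
  have hdep : ¬ M.Indep (S ∪ T) := by
    intro hI
    have h1 := hI.encard_le_eRank
    rw [← h.base1.encard_eq_eRank, encard_union_eq hST,
      encard_union_eq (h.disj.mono subset_union_left subset_union_right), h.cS, h.cY₁,
      encard_coe_eq_coe_finsetCard] at h1
    have h2 : s + T.card ≤ s + i := by exact_mod_cast h1
    omega
  have hE : S ∪ (T : Set α) ⊆ M.E :=
    union_subset (subset_union_left.trans h.base1.subset_ground)
      (hT.trans (subset_union_left.trans h.base2.subset_ground))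
  obtain ⟨C, hCsub, hC⟩ := (Matroid.Dep.exists_isCircuit_subset ⟨hdep, hE⟩)
  have hSind : M.Indep S := h.base1.indep.subset subset_union_left
  -- a point of the circuit in `T`
  have hne : (T.filter (fun x => x ∈ C)).Nonempty := by
    by_contra hcon
    rw [Finset.not_nonempty_iff_eq_empty] at hcon
    have : C ⊆ S := by
      intro x hx
      rcases hCsub hx with h1 | h1
      · exact h1
      · have : x ∈ T.filter (fun x => x ∈ C) := Finset.mem_filter.2 ⟨h1, hx⟩
        rw [hcon] at this
        exact absurd this (Finset.notMem_empty x)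
    exact hC.not_indep (hSind.subset this)
  obtain ⟨t, ht, hmax⟩ := Finset.exists_max_image _ f hne
  rw [Finset.mem_filter] at ht
  have htY : t ∈ Y := hT ht.1
  -- out-neighbour in `S`
  obtain ⟨b, hbC, hbZ, hb⟩ := circuit_out h.base2.indep hC ht.2 (Or.inl htY)
  have hbS : b ∈ S := by
    rcases hCsub hbC with h1 | h1
    · exact h1
    · exact absurd (Or.inl (hT h1)) hbZ
  obtain ⟨t', htC', htZ', ht'⟩ := circuit_out h.base1.indep hC hbC (Or.inl hbS)
  have htT' : t' ∈ T := by
    rcases hCsub htC' with h1 | h1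
    · exact absurd (Or.inl h1) htZ'
    · exact h1
  have h1 := hf t ht.1 t' htT' ⟨htY, hT htT', b, hbS, hb, ht'⟩
  have h2 := hmax t' (Finset.mem_filter.2 ⟨htT', htC'⟩)
  omega

/-- every element that is not yet exchanged has an out-neighbour -/
theorem Stage.serial (h : Stage M S S₁ Y Y₁ i s) {t : α} (ht : t ∈ Y) :
    ∃ t', Rel M S S₁ Y Y₁ t t' := by
  have hb : ∃ b ∈ S, Out M Y S₁ t b := by
    by_contra hcon
    push Not at hcon
    have h1 : S ∪ S₁ ⊆ M.closure ((Y ∪ S₁) \ {t}) := by
      rintro x (hx | hx)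
      · have := hcon x hx
        unfold Out at this
        exact not_not.1 this
      · refine M.mem_closure_of_mem ⟨Or.inr hx, ?_⟩ (sdiff_subset.trans h.base2.subset_ground)
        rintro rfl
        exact disjoint_left.1 h.disj (Or.inr hx) (Or.inl ht)
    have h2 := M.closure_subset_closure_of_subset_closure h1
    rw [h.baseB.closure_eq] at h2
    exact h.base2.indep.notMem_closure_sdiff_of_mem (Or.inl ht)
      (h2 (h.base2.subset_ground (Or.inl ht)))
  obtain ⟨b, hbS, hb⟩ := hb
  have ht' : ∃ t' ∈ Y, Out M S Y₁ b t' := by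
    by_contra hcon
    push Not at hcon
    have h1 : Y ∪ Y₁ ⊆ M.closure ((S ∪ Y₁) \ {b}) := by
      rintro x (hx | hx)
      · have := hcon x hx
        unfold Out at this
        exact not_not.1 this
      · refine M.mem_closure_of_mem ⟨Or.inr hx, ?_⟩ (sdiff_subset.trans h.base1.subset_ground)
        rintro rfl
        exact disjoint_left.1 h.disj (Or.inl hbS) (Or.inr hx)
    have h2 := M.closure_subset_closure_of_subset_closure h1
    rw [h.baseB'.closure_eq] at h2
    exact h.base1.indep.notMem_closure_sdiff_of_mem (Or.inl hbS)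
      (h2 (h.base1.subset_ground (Or.inl hbS)))
  obtain ⟨t', htY', ht'⟩ := ht'
  exact ⟨t', ht, htY', b, hbS, hb, ht'⟩

/-- there is a closed walk as long as not everything is exchanged -/
theorem Stage.exists_closed (h : Stage M S S₁ Y Y₁ i s) (hs : 1 ≤ s) :
    ∃ n, 1 ≤ n ∧ ∃ x, Wk (Rel M S S₁ Y Y₁) n x x := by
  classical
  have hYfin : Y.Finite := by
    rw [← encard_lt_top_iff, h.cY]
    exact ENat.natCast_lt_top s
  have hYne : Y.Nonempty := by
    rw [← encard_pos, h.cY]
    exact_mod_cast hs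
  obtain ⟨t0, ht0⟩ := hYne
  have hser : ∀ t : Y, ∃ t' : Y, Rel M S S₁ Y Y₁ t t' := by
    rintro ⟨t, ht⟩
    obtain ⟨t', h'⟩ := h.serial ht
    exact ⟨⟨t', h'.2.1⟩, h'⟩
  choose φ hφ using hser
  have hwalk : ∀ n : ℕ, ∀ t : Y, Wk (Rel M S S₁ Y Y₁) n t (φ^[n] t) := by
    intro n
    induction n with
    | zero => intro t; rfl
    | succ n ih =>
      intro t
      refine ⟨φ^[n] t, ih t, ?_⟩
      rw [Function.iterate_succ_apply']
      exact hφ _
  have : Finite Y := hYfin.to_subtype
  obtain ⟨m, n, hmn, heq⟩ := Finite.exists_ne_map_eq_of_infinite (fun n : ℕ => φ^[n] ⟨t0, ht0⟩)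
  wlog hlt : m < n generalizing m n
  · exact this n m hmn.symm heq.symm (by omega)
  refine ⟨n - m, by omega, (φ^[m] ⟨t0, ht0⟩ : Y), ?_⟩
  have h1 := hwalk (n - m) (φ^[m] ⟨t0, ht0⟩)
  rw [← Function.iterate_add_apply, Nat.sub_add_cancel hlt.le, ← heq] at h1
  exact h1

/-- a short closed walk exists in the first third -/
theorem Stage.exists_short (h : Stage M S S₁ Y Y₁ i s) (d : ℕ) (hd : 1 ≤ d)
    (h2 : 2 * (i + 1) ≤ 2 ^ d) (hs : 2 * (i + 1) ≤ s) :
    ∃ n, 1 ≤ n ∧ n ≤ 4 * d ^ 2 ∧ ∃ x, Wk (Rel M S S₁ Y Y₁) n x x := by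
  classical
  by_contra hcon
  push Not at hcon
  have h3 : ((2 * (i + 1) : ℕ) : ℕ∞) ≤ Y.encard := by
    rw [h.cY]
    exact_mod_cast hs
  obtain ⟨W, hWY, hW⟩ := exists_subset_encard_eq h3
  have hWfin : W.Finite := by
    rw [← encard_lt_top_iff, hW]
    exact ENat.natCast_lt_top _
  obtain ⟨T, hT, ⟨f, hf⟩, hc⟩ := half_acyclic (Rel M S S₁ Y Y₁) d hd hcon hWfin.toFinset (by
    have : (hWfin.toFinset.card : ℕ∞) = W.encard := by
      rw [← encard_coe_eq_coe_finsetCard]
      simp
    rw [hW] at this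
    have h5 : hWfin.toFinset.card = 2 * (i + 1) := by exact_mod_cast this
    omega)
  have h5 : hWfin.toFinset.card = 2 * (i + 1) := by
    have : (hWfin.toFinset.card : ℕ∞) = W.encard := by
      rw [← encard_coe_eq_coe_finsetCard]
      simp
    rw [hW] at this
    exact_mod_cast this
  refine h.no_potential T ?_ (by omega) f hf
  intro x hx
  have := hT hx
  rw [Finite.mem_toFinset] at this
  exact hWY this

end Pool.Agent.Lib.MP_2c7063_coD
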