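import Pool.Agent.Lib.MP_2c7063_coD.Step

/-! Extension of a serial exchange to orderings of the two bases. -/

namespace Pool.Agent.Lib.MP_2c7063_coD

open Set

variable {α : Type*}

/-- `x`, `y` are partial orderings of `B`, `B'` of length `i` -/
structure St (M : Matroid α) (B B' : Set α) (r : ℕ) (x y : ℕ → α) (i : ℕ) : Prop where
  xi : InjOn x (Iio i)
  yi : InjOn y (Iio i)
  xB : x '' Iio i ⊆ B
  yB : y '' Iio i ⊆ B'
  win : ∀ j ≤ i, M.IsBase ((B \ x '' Iio j) ∪ y '' Iio j) ∧
    (r : ℕ∞) ≤ M.eRk ((B' \ y '' Iio j) ∪ x '' Iio j) + 1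
  last : M.IsBase ((B' \ y '' Iio i) ∪ x '' Iio i)

open Classical in
/-- the indices at which both windows are bases -/
noncomputable def ex (M : Matroid α) (B' : Set α) (x y : ℕ → α) (i : ℕ) : Finset ℕ :=
  (Finset.range (i + 1)).filter (fun j => M.IsBase ((B' \ y '' Iio j) ∪ x '' Iio j))

variable {M : Matroid α} {B B' : Set α} {r i : ℕ} {x y : ℕ → α}

theorem encard_Iio (i : ℕ) : (Iio i : Set ℕ).encard = i := by
  rw [← Finset.coe_range, encard_coe_eq_coe_finsetCard, Finset.card_range]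

theorem St.stage (hB : M.IsBase B) (hB' : M.IsBase B') (hd : Disjoint B B') (hr : B.encard = r)
    (hr' : B'.encard = r) (h : St M B B' r x y i) (hi : i ≤ r) :
    Stage M (B \ x '' Iio i) (x '' Iio i) (B' \ y '' Iio i) (y '' Iio i) i (r - i) := by
  have e1 : (B \ x '' Iio i) ∪ x '' Iio i = B := sdiff_union_of_subset h.xB
  have e2 : (B' \ y '' Iio i) ∪ y '' Iio i = B' := sdiff_union_of_subset h.yB
  have c1 : (x '' Iio i).encard = i := by rw [h.xi.encard_image, encard_Iio]
  have c2 : (y '' Iio i).encard = i := by rw [h.yi.encard_image, encard_Iio]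
  have hne : (i : ℕ∞) ≠ ⊤ := ENat.natCast_ne_top i
  have c3 : (B \ x '' Iio i).encard = ((r - i : ℕ) : ℕ∞) := by
    have h1 := encard_sdiff_add_encard_of_subset h.xB
    rw [c1, hr] at h1
    have h2 : ((r : ℕ) : ℕ∞) = ((r - i : ℕ) : ℕ∞) + i := by
      rw [← Nat.cast_add, Nat.sub_add_cancel hi]
    rw [h2] at h1
    exact (ENat.add_left_injective_of_ne_top hne) h1
  have c4 : (B' \ y '' Iio i).encard = ((r - i : ℕ) : ℕ∞) := by
    have h1 := encard_sdiff_add_encard_of_subset h.yB
    rw [c2, hr'] at h1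
    have h2 : ((r : ℕ) : ℕ∞) = ((r - i : ℕ) : ℕ∞) + i := by
      rw [← Nat.cast_add, Nat.sub_add_cancel hi]
    rw [h2] at h1
    exact (ENat.add_left_injective_of_ne_top hne) h1
  exact
    { base1 := (h.win i (le_refl _)).1
      base2 := h.last
      baseB := by rw [e1]; exact hB
      baseB' := by rw [e2]; exact hB'
      disj := by rw [e1, e2]; exact hd
      dS := disjoint_sdiff_left
      dY := disjoint_sdiff_left
      cS₁ := c1
      cY₁ := c2
      cS := c3
      cY := c4 }

/-- concatenation of two sequences -/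
def cat (x b : ℕ → α) (i : ℕ) (j : ℕ) : α := if j < i then x j else b (j - i)

theorem cat_image_le (x b : ℕ → α) {i j : ℕ} (h : j ≤ i) : cat x b i '' Iio j = x '' Iio j := by
  apply image_congr
  intro a ha
  have : a < i := lt_of_lt_of_le ha h
  simp [cat, this]

theorem cat_image_add (x b : ℕ → α) (i p : ℕ) :
    cat x b i '' Iio (i + p) = x '' Iio i ∪ b '' Iio p := by
  ext z
  constructor
  · rintro ⟨j, hj, rfl⟩
    by_cases h : j < i
    · left
      exact ⟨j, h, by simp [cat, h]⟩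
    · right
      refine ⟨j - i, ?_, by simp [cat, h]⟩
      simp only [mem_Iio] at hj ⊢
      omega
  · rintro (⟨j, hj, rfl⟩ | ⟨j, hj, rfl⟩)
    · simp only [mem_Iio] at hj
      exact ⟨j, by simp only [mem_Iio]; omega, by simp [cat, hj]⟩
    · simp only [mem_Iio] at hj
      exact ⟨i + j, by simp only [mem_Iio]; omega, by simp [cat]⟩

theorem cat_injOn {x b : ℕ → α} {i p : ℕ} (hx : InjOn x (Iio i)) (hb : InjOn b (Iio p))
    (hd : Disjoint (x '' Iio i) (b '' Iio p)) : InjOn (cat x b i) (Iio (i + p)) := by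
  intro j hj l hl h
  simp only [mem_Iio] at hj hl
  by_cases h1 : j < i <;> by_cases h2 : l < i
  · simp only [cat, h1, h2, if_true] at h
    exact hx h1 h2 h
  · simp only [cat, h1, h2, if_true, if_false] at h
    exact absurd ⟨j, h1, h⟩ (disjoint_right.1 hd ⟨l - i, by simp only [mem_Iio]; omega, rfl⟩)
  · simp only [cat, h1, h2, if_true, if_false] at h
    exact absurd ⟨l, h2, h.symm⟩ (disjoint_right.1 hd ⟨j - i, by simp only [mem_Iio]; omega, rfl⟩)
  · simp only [cat, h1, h2, if_false] at h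
    have := hb (by simp only [mem_Iio]; omega) (by simp only [mem_Iio]; omega) h
    omega

/-- one more exact index -/
theorem St.extend (hB : M.IsBase B) (hB' : M.IsBase B') (hd : Disjoint B B') (hr : B.encard = r)
    (hr' : B'.encard = r) (h : St M B B' r x y i) (hi : i < r) (d : ℕ) (hd1 : 1 ≤ d)
    (hrd : r ≤ 2 ^ d) :
    ∃ q, 1 ≤ q ∧ i + q ≤ r ∧ (3 * i + 2 ≤ r → q ≤ 4 * d ^ 2) ∧ ∃ x' y' : ℕ → α,
      (∀ j < i, x' j = x j ∧ y' j = y j) ∧ St M B B' r x' y' (i + q) ∧
      (ex M B' x y i).card + 1 ≤ (ex M B' x' y' (i + q)).card := by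
  classical
  have hs := h.stage hB hB' hd hr hr' hi.le
  have hq : ∃ q, 1 ≤ q ∧ (3 * i + 2 ≤ r → q ≤ 4 * d ^ 2) ∧
      (∃ t, Wk (Rel M (B \ x '' Iio i) (x '' Iio i) (B' \ y '' Iio i) (y '' Iio i)) q t t) ∧
      ∀ m, 1 ≤ m → m < q →
        ∀ t, ¬ Wk (Rel M (B \ x '' Iio i) (x '' Iio i) (B' \ y '' Iio i) (y '' Iio i)) m t t := by
    by_cases h3 : 3 * i + 2 ≤ r
    · obtain ⟨n, h1, h2, t, ht⟩ := hs.exists_short d hd1 (by omega) (by omega)
      obtain ⟨q, hq1, hq2, hq3, hq4⟩ := exists_shortest h1 ht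
      exact ⟨q, hq1, fun _ => by omega, hq3, hq4⟩
    · obtain ⟨n, h1, t, ht⟩ := hs.exists_closed (by omega)
      obtain ⟨q, hq1, hq2, hq3, hq4⟩ := exists_shortest h1 ht
      exact ⟨q, hq1, fun h => absurd h h3, hq3, hq4⟩
  obtain ⟨q, hq1, hq2, ⟨t, ht⟩, hmin⟩ := hq
  obtain ⟨b, u, hbi, hui, hbS, huY, hwin, hlast⟩ := hs.step hq1 ht hmin
  have hiq : i + q ≤ r := by
    have h1 : (b '' Iio q).encard ≤ (B \ x '' Iio i).encard := encard_le_encard hbS
    rw [hbi.encard_image, encard_Iio, hs.cS] at h1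
    have h2 : q ≤ r - i := by exact_mod_cast h1
    omega
  have hbB : b '' Iio q ⊆ B := hbS.trans sdiff_subset
  have huB : u '' Iio q ⊆ B' := huY.trans sdiff_subset
  have dxb : Disjoint (x '' Iio i) (b '' Iio q) := by
    rw [disjoint_right]
    intro z hz
    exact (hbS hz).2
  have dyu : Disjoint (y '' Iio i) (u '' Iio q) := by
    rw [disjoint_right]
    intro z hz
    exact (huY hz).2
  have set1 : ∀ p ≤ q, (B \ (x '' Iio i ∪ b '' Iio p)) ∪ (y '' Iio i ∪ u '' Iio p) =
      (((B \ x '' Iio i) ∪ y '' Iio i) \ b '' Iio p) ∪ u '' Iio p := by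
    intro p hp
    ext z
    have hz : z ∈ y '' Iio i → z ∉ b '' Iio p := by
      intro h1 h2
      exact disjoint_left.1 hd (hbB (image_mono (Iio_subset_Iio hp) h2)) (h.yB h1)
    simp only [mem_union, mem_sdiff]
    tauto
  have set2 : ∀ p ≤ q, (B' \ (y '' Iio i ∪ u '' Iio p)) ∪ (x '' Iio i ∪ b '' Iio p) =
      (((B' \ y '' Iio i) ∪ x '' Iio i) \ u '' Iio p) ∪ b '' Iio p := by
    intro p hp
    ext z
    have hz : z ∈ x '' Iio i → z ∉ u '' Iio p := by
      intro h1 h2
      exact disjoint_left.1 hd (h.xB h1) (huB (image_mono (Iio_subset_Iio hp) h2))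
    simp only [mem_union, mem_sdiff]
    tauto
  have hir : i + (r - i) = r := by omega
  refine ⟨q, hq1, hiq, hq2, cat x b i, cat y u i, ?_, ?_, ?_⟩
  · intro j hj
    simp [cat, hj]
  · refine ⟨cat_injOn h.xi hbi dxb, cat_injOn h.yi hui dyu, ?_, ?_, ?_, ?_⟩
    · rw [cat_image_add]
      exact union_subset h.xB hbB
    · rw [cat_image_add]
      exact union_subset h.yB huB
    · intro j hj
      rcases Nat.lt_or_ge j i with hji | hji
      · rw [cat_image_le x b hji.le, cat_image_le y u hji.le]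
        exact h.win j hji.le
      · obtain ⟨p, rfl⟩ : ∃ p, j = i + p := ⟨j - i, by omega⟩
        have hp : p ≤ q := by omega
        rw [cat_image_add, cat_image_add, set1 p hp, set2 p hp]
        have h1 := hwin p hp
        rw [hir] at h1
        exact h1
    · rw [cat_image_add, cat_image_add, set2 q (le_refl _)]
      exact hlast
  · have h1 : insert (i + q) (ex M B' x y i) ⊆ ex M B' (cat x b i) (cat y u i) (i + q) := by
      intro j hj
      rw [Finset.mem_insert] at hj
      rcases hj with rfl | hj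
      · simp only [ex, Finset.mem_filter, Finset.mem_range]
        refine ⟨by omega, ?_⟩
        rw [cat_image_add, cat_image_add, set2 q (le_refl _)]
        exact hlast
      · simp only [ex, Finset.mem_filter, Finset.mem_range] at hj ⊢
        refine ⟨by omega, ?_⟩
        rw [cat_image_le x b (by omega), cat_image_le y u (by omega)]
        exact hj.2
    have h2 : i + q ∉ ex M B' x y i := by
      simp only [ex, Finset.mem_filter, Finset.mem_range, not_and]
      intro h3
      omega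
    have h3 := Finset.card_le_card h1
    rwa [Finset.card_insert_of_notMem h2] at h3

theorem St.complete (hB : M.IsBase B) (hB' : M.IsBase B') (hd : Disjoint B B')
    (hr : B.encard = r) (hr' : B'.encard = r) (d : ℕ) (hd1 : 1 ≤ d) (hrd : r ≤ 2 ^ d) :
    ∀ (n i : ℕ) (x y : ℕ → α), r - i ≤ n → i ≤ r → St M B B' r x y i →
      (3 * i ≤ 12 * d ^ 2 * (ex M B' x y i).card ∨ r ≤ 12 * d ^ 2 * (ex M B' x y i).card) →
      ∃ x' y' : ℕ → α, (∀ j < i, x' j = x j ∧ y' j = y j) ∧ St M B B' r x' y' r ∧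
        r ≤ 12 * d ^ 2 * (ex M B' x' y' r).card := by
  intro n
  induction n with
  | zero =>
    intro i x y hn hi h hinv
    have : i = r := by omega
    subst this
    exact ⟨x, y, fun j _ => ⟨rfl, rfl⟩, h, by omega⟩
  | succ n ih =>
    intro i x y hn hi h hinv
    rcases Nat.lt_or_ge i r with hir | hir
    · obtain ⟨q, hq1, hq2, hq3, x', y', hxy, hst, hc⟩ :=
        h.extend hB hB' hd hr hr' hir d hd1 hrd
      have h12 : 12 * d ^ 2 * ((ex M B' x y i).card + 1) ≤
          12 * d ^ 2 * (ex M B' x' y' (i + q)).card := Nat.mul_le_mul_left _ hc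
      have hexp : 12 * d ^ 2 * ((ex M B' x y i).card + 1) =
          12 * d ^ 2 * (ex M B' x y i).card + 12 * d ^ 2 := by ring
      have hdpos : 1 ≤ d ^ 2 := Nat.one_le_pow _ _ hd1
      obtain ⟨x'', y'', hxy', hst', hc'⟩ := ih (i + q) x' y' (by omega) hq2 hst (by
        rcases hinv with h1 | h1
        · by_cases h3 : 3 * i + 2 ≤ r
          · left
            have := hq3 h3
            omega
          · right
            omega
        · right
          omega)
      refine ⟨x'', y'', ?_, hst', hc'⟩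
      intro j hj
      rw [(hxy' j (by omega)).1, (hxy' j (by omega)).2]
      exact hxy j hj
    · have : i = r := by omega
      subst this
      exact ⟨x, y, fun j _ => ⟨rfl, rfl⟩, h, by omega⟩

/-- Every serial exchange extends to orderings of the two bases such that all windows have rank at
least `r - 1`, the windows that start in `B` are bases, and many of the others are bases. -/
theorem main (hB : M.IsBase B) (hB' : M.IsBase B') (hd : Disjoint B B') (hr : B.encard = r)
    (k : ℕ) (a b : ℕ → α) (ha : InjOn a (Iio k)) (hb : InjOn b (Iio k)) (haB : a '' Iio k ⊆ B)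
    (hbB : b '' Iio k ⊆ B')
    (hab : ∀ i ≤ k, M.IsBase ((B \ a '' Iio i) ∪ b '' Iio i) ∧
      M.IsBase ((B' \ b '' Iio i) ∪ a '' Iio i)) :
    ∃ x y : ℕ → α, InjOn x (Iio r) ∧ InjOn y (Iio r) ∧ x '' Iio r = B ∧ y '' Iio r = B' ∧
      (∀ j < k, x j = a j ∧ y j = b j) ∧
      (∀ i ≤ r, M.IsBase ((B \ x '' Iio i) ∪ y '' Iio i) ∧
        (r : ℕ∞) ≤ M.eRk ((B' \ y '' Iio i) ∪ x '' Iio i) + 1) ∧
      r ≤ 12 * (Nat.log 2 r + 1) ^ 2 *
        {i ∈ Iic r | M.IsBase ((B' \ y '' Iio i) ∪ x '' Iio i)}.ncard := by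
  classical
  have hr' : B'.encard = r := by rw [← hB.encard_eq_encard_of_isBase hB', hr]
  have hkr : k ≤ r := by
    have h1 : (a '' Iio k).encard ≤ B.encard := encard_le_encard haB
    rw [ha.encard_image, encard_Iio, hr] at h1
    exact_mod_cast h1
  have hbase : ∀ Z : Set α, M.IsBase Z → (r : ℕ∞) ≤ M.eRk Z + 1 := by
    intro Z hZ
    rw [hZ.eRk_eq_eRank, ← hB.encard_eq_eRank, hr]
    exact le_self_add
  have hst : St M B B' r a b k :=
    ⟨ha, hb, haB, hbB, fun j hj => ⟨(hab j hj).1, hbase _ (hab j hj).2⟩, (hab k (le_refl _)).2⟩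
  have hex : (ex M B' a b k) = Finset.range (k + 1) := by
    ext j
    simp only [ex, Finset.mem_filter, Finset.mem_range, and_iff_left_iff_imp]
    intro hj
    exact (hab j (by omega)).2
  have hrd : r ≤ 2 ^ (Nat.log 2 r + 1) := (Nat.lt_pow_succ_log_self (by norm_num) r).le
  obtain ⟨x, y, hxy, h, hc⟩ := St.complete hB hB' hd hr hr' (Nat.log 2 r + 1) (by omega) hrd r k a b
    (by omega) hkr hst (by
      left
      rw [hex, Finset.card_range]
      have h1 : 1 ≤ (Nat.log 2 r + 1) ^ 2 := Nat.one_le_pow _ _ (by omega)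
      have h2 : 1 * (k + 1) ≤ (Nat.log 2 r + 1) ^ 2 * (k + 1) := Nat.mul_le_mul_right _ h1
      have h3 : 12 * (Nat.log 2 r + 1) ^ 2 * (k + 1) =
          12 * ((Nat.log 2 r + 1) ^ 2 * (k + 1)) := by ring
      omega)
  have hfin : ∀ {C : Set α}, C.encard = r → C.Finite := by
    intro C hC
    rw [← encard_lt_top_iff, hC]
    exact ENat.natCast_lt_top r
  refine ⟨x, y, h.xi, h.yi, ?_, ?_, hxy, h.win, ?_⟩
  · apply ((hfin hr).subset h.xB).eq_of_subset_of_encard_le h.xB
    rw [h.xi.encard_image, encard_Iio, hr]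
  · apply ((hfin hr').subset h.yB).eq_of_subset_of_encard_le h.yB
    rw [h.yi.encard_image, encard_Iio, hr']
  · have e : {i ∈ Iic r | M.IsBase ((B' \ y '' Iio i) ∪ x '' Iio i)} = (ex M B' x y r : Set ℕ) := by
      ext j
      simp only [ex, mem_ofPred_eq, Finset.coe_filter, Finset.mem_range, mem_Iic]
      rw [Nat.lt_succ_iff]
    rw [e, ncard_coe_finset]
    exact hc

end Pool.Agent.Lib.MP_2c7063_coD
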