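import Pool.Agent.Lib.MP_2c7063_coD.Exch

/-! A shortest cycle of the exchange digraph and the corresponding exchange. -/

namespace Pool.Agent.Lib.MP_2c7063_coD

open Set

variable {α : Type*}

theorem walk_seq {R : α → α → Prop} : ∀ {n : ℕ} {x y : α}, Wk R n x y →
    ∃ t : ℕ → α, t 0 = x ∧ t n = y ∧ ∀ j < n, R (t j) (t (j + 1))
  | 0, x, y, h => ⟨fun _ => x, rfl, h, fun j hj => absurd hj (Nat.not_lt_zero j)⟩
  | n + 1, x, y, h => by
      obtain ⟨z, h1, h2⟩ := h
      obtain ⟨t, ht0, htn, ht⟩ := walk_seq h1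
      refine ⟨fun j => if j ≤ n then t j else y, by simp [ht0], by simp, ?_⟩
      intro j hj
      rcases Nat.lt_or_ge j n with hjn | hjn
      · have e1 : j ≤ n := hjn.le
        have e2 : j + 1 ≤ n := hjn
        simp only [e1, e2, if_true]
        exact ht j hjn
      · have e1 : j = n := by omega
        subst e1
        have e2 : ¬ (j + 1 ≤ j) := by omega
        simp only [le_refl, e2, if_true, if_false]
        rw [htn]
        exact h2

theorem seq_walk {R : α → α → Prop} {t : ℕ → α} {n : ℕ} (h : ∀ j < n, R (t j) (t (j + 1)))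
    {j : ℕ} : ∀ {l : ℕ}, j ≤ l → l ≤ n → Wk R (l - j) (t j) (t l) := by
  intro l
  induction l with
  | zero =>
    intro h1 _
    have : j = 0 := by omega
    subst this
    rfl
  | succ l ih =>
    intro h1 h2
    rcases Nat.lt_or_ge l j with hl | hl
    · have : j = l + 1 := by omega
      subst this
      rw [Nat.sub_self]
      rfl
    · have e : l + 1 - j = (l - j) + 1 := by omega
      rw [e]
      exact ⟨t l, ih hl (by omega), h l (by omega)⟩

variable {M : Matroid α} {S S₁ Y Y₁ : Set α} {i s : ℕ}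

/-- the arcs of a shortest cycle are the only arcs between its vertices -/
theorem cycle_arcs {q : ℕ} (hq : 1 ≤ q) {t0 : α} (hw : Wk (Rel M S S₁ Y Y₁) q t0 t0)
    (hmin : ∀ n, 1 ≤ n → n < q → ∀ x, ¬ Wk (Rel M S S₁ Y Y₁) n x x) :
    ∃ t b : ℕ → α, t q = t 0 ∧ (∀ j ≤ q, t j ∈ Y) ∧ (∀ j < q, b j ∈ S) ∧
      (∀ j < q, ∀ l < q, (Out M Y S₁ (t j) (b l) ↔ l = j)) ∧
      (∀ j < q, ∀ l < q, (Out M S Y₁ (b j) (t (l + 1)) ↔ l = j)) := by
  classical
  obtain ⟨t, ht0, htq, ht⟩ := walk_seq hw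
  have hbex : ∀ j : ℕ, ∃ b : α, j < q → b ∈ S ∧ Out M Y S₁ (t j) b ∧ Out M S Y₁ b (t (j + 1)) := by
    intro j
    by_cases hj : j < q
    · obtain ⟨_, _, b, hb, h1, h2⟩ := ht j hj
      exact ⟨b, fun _ => ⟨hb, h1, h2⟩⟩
    · exact ⟨t0, fun h => absurd h hj⟩
  choose b hb using hbex
  have htY : ∀ j ≤ q, t j ∈ Y := by
    intro j hj
    rcases Nat.lt_or_ge j q with h | h
    · exact (ht j h).1
    · have : j = q := by omega
      subst this
      rw [htq, ← ht0]
      exact (ht 0 (by omega)).1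
  have ht' : ∀ j < q, Rel M S S₁ Y Y₁ (t j) (t (j + 1)) := ht
  -- a forbidden arc gives a shorter closed walk
  have key : ∀ j < q, ∀ l < q, Rel M S S₁ Y Y₁ (t j) (t (l + 1)) → l = j := by
    intro j hj l hl hR
    by_contra hne
    rcases Nat.lt_or_ge l j with hlj | hlj
    · have h1 := seq_walk ht' (j := l + 1) (l := j) hlj (by omega)
      have h2 := h1.trans (Wk.one hR)
      exact hmin (j - (l + 1) + 1) (by omega) (by omega) _ h2
    · have h1 := seq_walk ht' (j := l + 1) (l := q) (by omega) (le_refl _)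
      have h2 := seq_walk ht' (j := 0) (l := j) (by omega) (by omega)
      rw [htq, ← ht0] at h1
      have h3 := (h1.trans h2).trans (Wk.one hR)
      exact hmin (q - (l + 1) + (j - 0) + 1) (by omega) (by omega) _ h3
  refine ⟨t, b, by rw [htq, ht0], htY, fun j hj => (hb j hj).1, ?_, ?_⟩
  · intro j hj l hl
    constructor
    · intro h1
      exact key j hj l hl ⟨htY j hj.le, htY (l + 1) hl, b l, (hb l hl).1, h1, (hb l hl).2.2⟩
    · rintro rfl
      exact (hb l hl).2.1
  · intro j hj l hl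
    constructor
    · intro h1
      exact key j hj l hl ⟨htY j hj.le, htY (l + 1) hl, b j, (hb j hj).1, (hb j hj).2.1, h1⟩
    · rintro rfl
      exact (hb l hl).2.2

/-- The exchange along a shortest cycle. -/
theorem Stage.step (h : Stage M S S₁ Y Y₁ i s) {q : ℕ} (hq : 1 ≤ q) {t0 : α}
    (hw : Wk (Rel M S S₁ Y Y₁) q t0 t0)
    (hmin : ∀ n, 1 ≤ n → n < q → ∀ x, ¬ Wk (Rel M S S₁ Y Y₁) n x x) :
    ∃ b u : ℕ → α, InjOn b (Iio q) ∧ InjOn u (Iio q) ∧ b '' Iio q ⊆ S ∧ u '' Iio q ⊆ Y ∧
      (∀ p ≤ q, M.IsBase (((S ∪ Y₁) \ b '' Iio p) ∪ u '' Iio p) ∧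
        ((i + s : ℕ) : ℕ∞) ≤ M.eRk (((Y ∪ S₁) \ u '' Iio p) ∪ b '' Iio p) + 1) ∧
      M.IsBase (((Y ∪ S₁) \ u '' Iio q) ∪ b '' Iio q) := by
  classical
  obtain ⟨t, b, htq, htY, hbS, hD, hN⟩ := cycle_arcs hq hw hmin
  have hfin1 : (S ∪ Y₁).Finite := by
    rw [← encard_lt_top_iff, encard_union_eq (h.disj.mono subset_union_left subset_union_right),
      h.cS, h.cY₁]
    exact_mod_cast ENat.natCast_lt_top (s + i)
  have hfin2 : (Y ∪ S₁).Finite := by
    rw [← encard_lt_top_iff,
      encard_union_eq (h.disj.symm.mono subset_union_left subset_union_right), h.cY, h.cS₁]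
    exact_mod_cast ENat.natCast_lt_top (s + i)
  have hcard : (Y ∪ S₁).encard = ((i + s : ℕ) : ℕ∞) := by
    rw [encard_union_eq (h.disj.symm.mono subset_union_left subset_union_right), h.cY, h.cS₁]
    push_cast
    rw [add_comm]
  have hSE : ∀ j < q, b j ∈ M.E := fun j hj => h.base1.subset_ground (Or.inl (hbS j hj))
  have hYE : ∀ j ≤ q, t j ∈ M.E := fun j hj => h.base2.subset_ground (Or.inl (htY j hj))
  have himg : ∀ p : ℕ, (fun l => t (l + 1)) '' Iio p = t '' (Icc 1 p) := by
    intro p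
    ext x
    constructor
    · rintro ⟨l, hl, rfl⟩
      exact ⟨l + 1, ⟨by omega, hl⟩, rfl⟩
    · rintro ⟨l, hl, rfl⟩
      refine ⟨l - 1, ?_, ?_⟩
      · have := hl.1
        have := hl.2
        simp only [mem_Iio]
        omega
      · have := hl.1
        simp only
        congr 1
        omega
  have hiff : ∀ j < q, ∀ l < q, (b l ∉ M.closure ((Y ∪ S₁) \ {t j}) ↔ l = j) := hD
  have hiff' : ∀ j < q, ∀ l < q, (t (l + 1) ∉ M.closure ((S ∪ Y₁) \ {b j}) ↔ l = j) := hN
  refine ⟨b, fun l => t (l + 1), ?_, ?_, ?_, ?_, ?_, ?_⟩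
  · intro j hj l hl hjl
    have h1 := (hN l hl l hl).2 rfl
    rw [← hjl] at h1
    exact ((hN j hj l hl).1 h1).symm
  · intro j hj l hl hjl
    have h1 := (hN j hj j hj).2 rfl
    simp only at hjl
    rw [hjl] at h1
    exact ((hN j hj l hl).1 h1).symm
  · rintro _ ⟨j, hj, rfl⟩
    exact hbS j hj
  · rintro _ ⟨j, hj, rfl⟩
    exact htY (j + 1) hj
  · intro p hp
    constructor
    · have h1 := diag_exchange h.base1 hfin1 (Finset.range p) b (fun l => t (l + 1))
        (fun j hj => Or.inl (hbS j (by have := Finset.mem_range.1 hj; omega)))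
        (fun j hj => hYE (j + 1) (by have := Finset.mem_range.1 hj; omega))
        (fun j hj l hl => hiff' j (by have := Finset.mem_range.1 hj; omega) l
          (by have := Finset.mem_range.1 hl; omega))
      rwa [Finset.coe_range] at h1
    · rcases Nat.eq_zero_or_pos p with rfl | hp0
      · have e : ((Y ∪ S₁) \ (fun l => t (l + 1)) '' Iio 0) ∪ b '' Iio 0 = Y ∪ S₁ := by
          ext x
          simp
        rw [e, h.base2.eRk_eq_eRank, ← h.base2.encard_eq_eRank, hcard]
        exact le_self_add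
      · have h1 := diag_exchange h.base2 hfin2 (Finset.Ico 1 p) t b
          (fun j hj => Or.inl (htY j (by have := Finset.mem_Ico.1 hj; omega)))
          (fun j hj => hSE j (by have := Finset.mem_Ico.1 hj; omega))
          (fun j hj l hl => hiff j (by have := Finset.mem_Ico.1 hj; omega) l
            (by have := Finset.mem_Ico.1 hl; omega))
        rw [Finset.coe_Ico] at h1
        have hsub : ((Y ∪ S₁) \ t '' Ico 1 p) ∪ b '' Ico 1 p ⊆
            insert (t p) (((Y ∪ S₁) \ (fun l => t (l + 1)) '' Iio p) ∪ b '' Iio p) := by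
          rw [himg]
          rintro x (⟨hx, hx'⟩ | ⟨j, hj, rfl⟩)
          · by_cases hxp : x = t p
            · exact Or.inl hxp
            · refine Or.inr (Or.inl ⟨hx, ?_⟩)
              rintro ⟨j, hj, rfl⟩
              rcases Nat.lt_or_ge j p with h2 | h2
              · exact hx' ⟨j, ⟨hj.1, h2⟩, rfl⟩
              · have : j = p := le_antisymm hj.2 h2
                exact hxp (by rw [this])
          · exact Or.inr (Or.inr ⟨j, hj.2, rfl⟩)
        have h2 : ((i + s : ℕ) : ℕ∞) =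
            M.eRk (((Y ∪ S₁) \ t '' Ico 1 p) ∪ b '' Ico 1 p) := by
          rw [h1.eRk_eq_eRank, ← h.base2.encard_eq_eRank, hcard]
        rw [h2]
        exact (M.eRk_mono hsub).trans (M.eRk_insert_le_add_one _ _)
  · have h1 := diag_exchange h.base2 hfin2 (Finset.range q) t b
      (fun j hj => Or.inl (htY j (by have := Finset.mem_range.1 hj; omega)))
      (fun j hj => hSE j (by have := Finset.mem_range.1 hj; omega))
      (fun j hj l hl => hiff j (by have := Finset.mem_range.1 hj; omega) l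
        (by have := Finset.mem_range.1 hl; omega))
    rw [Finset.coe_range] at h1
    have e : (fun l => t (l + 1)) '' Iio q = t '' Iio q := by
      rw [himg]
      ext x
      constructor
      · rintro ⟨j, hj, rfl⟩
        rcases Nat.lt_or_ge j q with h2 | h2
        · exact ⟨j, h2, rfl⟩
        · have : j = q := le_antisymm hj.2 h2
          exact ⟨0, by simp only [mem_Iio]; omega, by rw [this, htq]⟩
      · rintro ⟨j, hj, rfl⟩
        rcases Nat.eq_zero_or_pos j with rfl | h2
        · exact ⟨q, ⟨hq, le_refl _⟩, htq⟩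
        · exact ⟨j, ⟨h2, (mem_Iio.1 hj).le⟩, rfl⟩
    rw [e]
    exact h1

/-- a shortest closed walk -/
theorem exists_shortest {R : α → α → Prop} {n : ℕ} (hn : 1 ≤ n) {x : α} (h : Wk R n x x) :
    ∃ q, 1 ≤ q ∧ q ≤ n ∧ (∃ x, Wk R q x x) ∧ ∀ m, 1 ≤ m → m < q → ∀ x, ¬ Wk R m x x := by
  classical
  have hex : ∃ q, 1 ≤ q ∧ ∃ x, Wk R q x x := ⟨n, hn, x, h⟩
  refine ⟨Nat.find hex, (Nat.find_spec hex).1, Nat.find_min' hex ⟨hn, x, h⟩,
    (Nat.find_spec hex).2, ?_⟩
  intro m hm hlt x hx
  exact Nat.find_min hex hlt ⟨hm, x, hx⟩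

end Pool.Agent.Lib.MP_2c7063_coD
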